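import Pool.Agent.W588.Short

/-!
# Correlations with one and two more linear forms form a contraction, in almost all short intervals
-/

set_option autoImplicit false

namespace Pool.Agent.W588

open Finset Pool.Agent.H376R2.MR Pool.Agent.H970R2.X Pool.Agent.H426R3.CL

/-- the Liouville function with real values -/
noncomputable def lamR (n : ℕ) : ℝ := (-1 : ℝ) ^ ArithmeticFunction.cardFactors n

lemma lam_cast (n : ℕ) : ((lam n : ℤ) : ℝ) = lamR n := by
  unfold lam lamR
  push_cast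
  rfl

lemma lamR_sq (n : ℕ) : lamR n * lamR n = 1 := by
  unfold lamR
  rw [← pow_add, ← two_mul, pow_mul]
  simp

lemma lamR_abs (n : ℕ) : |lamR n| = 1 := by
  unfold lamR
  rw [abs_pow]
  simp

/-- the Liouville function at a linear form, over a short interval -/
lemma SI_form {c : ℕ} (hc : 0 < c) (d H n : ℕ) :
    SI (gl c d) (c * H) (c * n + d) = ∑ m ∈ Ioc n (n + H), lamR (c * m + d) := by
  unfold SI
  rw [← sum_image (s := Ioc n (n + H)) (g := fun m => c * m + d) (f := lamR)]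
  · rw [← sum_subset (s₁ := (Ioc n (n + H)).image (fun m => c * m + d))]
    · refine sum_congr rfl fun j hj => ?_
      rw [mem_image] at hj
      obtain ⟨m, _, rfl⟩ := hj
      rw [← lam_cast]
      unfold gl
      rw [if_pos (by rw [Nat.mul_add_mod])]
    · intro j hj
      rw [mem_image] at hj
      obtain ⟨m, hm, rfl⟩ := hj
      rw [mem_Ioc] at hm ⊢
      have h1 : c * n < c * m := Nat.mul_lt_mul_of_pos_left hm.1 hc
      have h2 : c * m ≤ c * n + c * H := by
        rw [← Nat.mul_add]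
        exact Nat.mul_le_mul_left _ hm.2
      omega
    · intro j hj hj'
      unfold gl
      split_ifs with hmod
      · exfalso
        apply hj'
        rw [mem_Ioc] at hj
        rw [mem_image]
        have hdj : d ≤ j := by
          have := Nat.zero_le (c * n)
          omega
        have h3 : c ∣ j - d := (Nat.modEq_iff_dvd' hdj).1 (by
          unfold Nat.ModEq
          exact hmod.symm)
        obtain ⟨m, hm⟩ := h3
        have hj1 : j = c * m + d := by omega
        refine ⟨m, ?_, hj1.symm⟩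
        rw [mem_Ioc]
        constructor
        · by_contra hcon
          push Not at hcon
          have := Nat.mul_le_mul_left c hcon
          omega
        · by_contra hcon
          push Not at hcon
          have := Nat.mul_lt_mul_of_pos_left hcon hc
          rw [Nat.mul_add] at this
          omega
      · simp
  · intro m _ m' _ h
    simp only at h
    have : c * m = c * m' := by omega
    exact Nat.eq_of_mul_eq_mul_left hc this

/-- few short intervals with a large sum of the Liouville function at a linear form -/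
lemma form_short {c : ℕ} (hc : 0 < c) (d : ℕ) {ε : ℝ} (hε : 0 < ε) :
    ∃ H₀ : ℕ, ∀ H : ℕ, H₀ ≤ H → ∃ X₀ : ℕ, ∀ X : ℕ, X₀ ≤ X →
      (((Icc 1 X).filter (fun n => ε * H < |∑ m ∈ Ioc n (n + H), lamR (c * m + d)|)).card : ℝ)
        ≤ ε * X := by
  have hc0 : (0 : ℝ) < c := by exact_mod_cast hc
  obtain ⟨H₀, hH₀, h⟩ := short (gl_small hc d) (ε := ε ^ 2 / (c * (c + 1))) (by positivity)
  refine ⟨H₀, fun H hH => ?_⟩
  have hHpos : 0 < H := by omega
  have hH0 : (0 : ℝ) < H := by exact_mod_cast hHpos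
  obtain ⟨X₀, hX₀⟩ := h (c * H) (hH.trans (Nat.le_mul_of_pos_left _ hc))
  refine ⟨max X₀ d, fun X hX => ?_⟩
  have hXd : d ≤ X := (le_max_right _ _).trans hX
  have h1 := hX₀ (c * X + d) (by
    have := (le_max_left _ _).trans hX
    have h2 : X ≤ c * X := Nat.le_mul_of_pos_left _ hc
    omega)
  set T := (Icc 1 X).filter (fun n => ε * H < |∑ m ∈ Ioc n (n + H), lamR (c * m + d)|) with hT
  have h2 : (T.card : ℝ) * (ε * H) ≤ ∑ n ∈ Icc 1 (c * X + d), |SI (gl c d) (c * H) n| := by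
    calc (T.card : ℝ) * (ε * H) = ∑ _n ∈ T, ε * H := by rw [sum_const, nsmul_eq_mul]
      _ ≤ ∑ n ∈ T, |SI (gl c d) (c * H) (c * n + d)| := by
          refine sum_le_sum fun n hn => ?_
          rw [hT, mem_filter] at hn
          rw [SI_form hc]
          exact hn.2.le
      _ = ∑ j ∈ T.image (fun n => c * n + d), |SI (gl c d) (c * H) j| := by
          rw [sum_image]
          intro m _ m' _ h
          simp only at h
          have : c * m = c * m' := by omega
          exact Nat.eq_of_mul_eq_mul_left hc this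
      _ ≤ _ := by
          refine sum_le_sum_of_subset_of_nonneg ?_ fun _ _ _ => abs_nonneg _
          intro j hj
          rw [mem_image] at hj
          obtain ⟨n, hn, rfl⟩ := hj
          rw [hT, mem_filter, mem_Icc] at hn
          rw [mem_Icc]
          have h3 := Nat.mul_le_mul_left c hn.1.2
          have h4 : n ≤ c * n := Nat.le_mul_of_pos_left _ hc
          omega
  have h3 : ε ^ 2 / (c * (c + 1)) * ((c * X + d : ℕ) : ℝ) * ((c * H : ℕ) : ℝ) ≤
      ε * X * (ε * H) := by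
    have h4 : ((c * X + d : ℕ) : ℝ) ≤ (c + 1) * X := by
      push_cast
      have : (d : ℝ) ≤ X := by exact_mod_cast hXd
      linarith
    calc ε ^ 2 / (c * (c + 1)) * ((c * X + d : ℕ) : ℝ) * ((c * H : ℕ) : ℝ)
        ≤ ε ^ 2 / (c * (c + 1)) * ((c + 1) * X) * ((c * H : ℕ) : ℝ) := by gcongr
      _ = ε * X * (ε * H) := by
          push_cast
          field_simp
  have h5 : (T.card : ℝ) * (ε * H) ≤ ε * X * (ε * H) := h2.trans (h1.trans h3)
  exact le_of_mul_le_mul_right h5 (by positivity)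

/-- the sum of `(x + y v)²` -/
lemma sq_sum {s : Finset ℕ} {v : ℕ → ℝ} (hv : ∀ m, v m * v m = 1) {M ε x y : ℝ}
    (hM : (s.card : ℝ) ≤ M) (h : |∑ m ∈ s, v m| ≤ ε * M) :
    ∑ m ∈ s, (x + y * v m) ^ 2 ≤ (1 + ε) * (x ^ 2 + y ^ 2) * M := by
  have h1 : ∑ m ∈ s, (x + y * v m) ^ 2 =
      (s.card : ℝ) * (x ^ 2 + y ^ 2) + 2 * x * y * ∑ m ∈ s, v m := by
    have h2 : ∀ m ∈ s, (x + y * v m) ^ 2 = (x ^ 2 + y ^ 2) + 2 * x * y * v m := by
      intro m _
      linear_combination y ^ 2 * hv m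
    rw [sum_congr rfl h2, sum_add_distrib, sum_const, nsmul_eq_mul, mul_sum]
  rw [h1]
  have h3 : 2 * x * y * ∑ m ∈ s, v m ≤ (x ^ 2 + y ^ 2) * (ε * M) := by
    calc 2 * x * y * ∑ m ∈ s, v m ≤ |2 * x * y * ∑ m ∈ s, v m| := le_abs_self _
      _ = |2 * x * y| * |∑ m ∈ s, v m| := abs_mul _ _
      _ ≤ (x ^ 2 + y ^ 2) * (ε * M) := by
          have h4 : |2 * x * y| ≤ x ^ 2 + y ^ 2 := by
            rw [abs_le]
            constructor <;> nlinarith [sq_nonneg (x + y), sq_nonneg (x - y)]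
          exact mul_le_mul h4 h (abs_nonneg _) (by positivity)
  have h5 : (s.card : ℝ) * (x ^ 2 + y ^ 2) ≤ M * (x ^ 2 + y ^ 2) := by gcongr
  linarith

/-- **the contraction inequality** on a finite set of integers -/
lemma contraction {s : Finset ℕ} {u v v' : ℕ → ℝ} (hu : ∀ m, |u m| ≤ 1)
    (hv : ∀ m, v m * v m = 1) (hv' : ∀ m, v' m * v' m = 1) {M ε : ℝ} (hε : 0 ≤ ε)
    (hM : (s.card : ℝ) ≤ M) (h : |∑ m ∈ s, v m| ≤ ε * M) (h' : |∑ m ∈ s, v' m| ≤ ε * M)
    (x y x' y' : ℝ) :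
    |x * x' * (∑ m ∈ s, u m) + x * y' * (∑ m ∈ s, u m * v' m) + y * x' * (∑ m ∈ s, u m * v m) +
      y * y' * (∑ m ∈ s, u m * v m * v' m)| ≤
      (1 + ε) * √(x ^ 2 + y ^ 2) * √(x' ^ 2 + y' ^ 2) * M := by
  have hM0 : 0 ≤ M := (Nat.cast_nonneg _).trans hM
  have h1 : x * x' * (∑ m ∈ s, u m) + x * y' * (∑ m ∈ s, u m * v' m) +
      y * x' * (∑ m ∈ s, u m * v m) + y * y' * (∑ m ∈ s, u m * v m * v' m) =
      ∑ m ∈ s, (u m * (x + y * v m)) * (x' + y' * v' m) := by
    simp only [mul_sum, ← sum_add_distrib]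
    refine sum_congr rfl fun m _ => ?_
    ring
  rw [h1]
  have h2 := sum_mul_sq_le_sq_mul_sq s (fun m => u m * (x + y * v m)) (fun m => x' + y' * v' m)
  have h3 : ∑ m ∈ s, (u m * (x + y * v m)) ^ 2 ≤ (1 + ε) * (x ^ 2 + y ^ 2) * M := by
    refine le_trans (sum_le_sum fun m _ => ?_) (sq_sum hv hM h)
    rw [mul_pow]
    have h4 : u m ^ 2 ≤ 1 := by
      have := hu m
      rw [← sq_abs]
      nlinarith [abs_nonneg (u m)]
    nlinarith [sq_nonneg (x + y * v m)]
  have h4 : ∑ m ∈ s, (x' + y' * v' m) ^ 2 ≤ (1 + ε) * (x' ^ 2 + y' ^ 2) * M := sq_sum hv' hM h'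
  have h5 : (∑ m ∈ s, (u m * (x + y * v m)) * (x' + y' * v' m)) ^ 2 ≤
      ((1 + ε) * √(x ^ 2 + y ^ 2) * √(x' ^ 2 + y' ^ 2) * M) ^ 2 := by
    calc (∑ m ∈ s, (u m * (x + y * v m)) * (x' + y' * v' m)) ^ 2
        ≤ (∑ m ∈ s, (u m * (x + y * v m)) ^ 2) * ∑ m ∈ s, (x' + y' * v' m) ^ 2 := h2
      _ ≤ ((1 + ε) * (x ^ 2 + y ^ 2) * M) * ((1 + ε) * (x' ^ 2 + y' ^ 2) * M) := by
          gcongr
      _ = ((1 + ε) * √(x ^ 2 + y ^ 2) * √(x' ^ 2 + y' ^ 2) * M) ^ 2 := by
          rw [mul_pow, mul_pow, mul_pow, Real.sq_sqrt (by positivity),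
            Real.sq_sqrt (by positivity)]
          ring
  exact abs_le_of_sq_le_sq' h5 (by positivity) |> abs_le.2

end Pool.Agent.W588
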