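import Pool.Agent.W588.Chowla

/-!
# Chowla sums: consecutive ones form a contraction, uniformly in the length
-/

set_option autoImplicit false

namespace Pool.Agent.W588

open Finset Pool.Agent.H376R2.MR Pool.Agent.H970R2.X Pool.Agent.H426R3.CL

/-- Chowla's sum of products of `k` consecutive values -/
noncomputable def SK (k N : ℕ) : ℝ := ∑ n ∈ Icc 1 N, ∏ i ∈ range k, lamR (n + i)

lemma prod_abs (k n : ℕ) : |∏ i ∈ range k, lamR (n + i)| = 1 := by
  rw [abs_prod]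
  exact prod_eq_one fun i _ => lamR_abs _

/-- the prime number theorem, with an additive constant -/
lemma pnt {δ : ℝ} (hδ : 0 < δ) : ∃ C : ℝ, 0 ≤ C ∧ ∀ N : ℕ, |∑ n ∈ Icc 1 N, lamR n| ≤ δ * N + C := by
  obtain ⟨N₀, h⟩ := gl_littleO 1 0 one_pos hδ
  refine ⟨N₀, Nat.cast_nonneg _, fun N => ?_⟩
  have h0 : 0 ≤ δ * (N : ℝ) := by positivity
  by_cases hN : N₀ ≤ N
  · have h1 := h N hN
    have h2 : ∑ n ∈ Icc 1 N, ((gl 1 0 n : ℤ) : ℝ) = ∑ n ∈ Icc 1 N, lamR n := by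
      refine sum_congr rfl fun n _ => ?_
      rw [← lam_cast]
      unfold gl
      rw [if_pos (by simp [Nat.mod_one])]
    rw [h2] at h1
    have : (0 : ℝ) ≤ N₀ := Nat.cast_nonneg _
    linarith
  · push Not at hN
    have h1 : |∑ n ∈ Icc 1 N, lamR n| ≤ N := by
      refine (abs_sum_le_sum_abs _ _).trans ?_
      rw [sum_congr rfl (fun n _ => lamR_abs n)]
      simp
    have h2 : (N : ℝ) ≤ N₀ := by exact_mod_cast hN.le
    linarith

lemma sum_shift (f : ℕ → ℝ) (N k : ℕ) :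
    ∑ n ∈ Icc 1 N, f (n + k) = ∑ n ∈ Icc 1 (N + k), f n - ∑ n ∈ Icc 1 k, f n := by
  induction N with
  | zero => simp
  | succ N ih =>
    rw [sum_Icc_succ_top (by omega), ih, show N + 1 + k = (N + k) + 1 by omega,
      sum_Icc_succ_top (by omega)]
    ring

lemma pnt_shift {ε : ℝ} (hε : 0 < ε) : ∃ N₀ : ℕ, ∀ N : ℕ, N₀ ≤ N → ∀ k : ℕ, k ≤ N →
    |∑ n ∈ Icc 1 N, lamR (n + k)| ≤ ε * N := by
  obtain ⟨C, hC, h⟩ := pnt (δ := ε / 6) (by positivity)
  refine ⟨⌈4 * C / ε⌉₊, fun N hN k hk => ?_⟩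
  have h1 : 4 * C / ε ≤ N := (Nat.le_ceil _).trans (by exact_mod_cast hN)
  rw [div_le_iff₀ hε] at h1
  rw [sum_shift lamR N k]
  have h2 := h (N + k)
  have h3 := h k
  have h4 := abs_sub (∑ n ∈ Icc 1 (N + k), lamR n) (∑ n ∈ Icc 1 k, lamR n)
  have h5 : (k : ℝ) ≤ N := by exact_mod_cast hk
  push_cast at h2
  nlinarith

/-- **Contraction inequality** for three consecutive Chowla sums, uniformly in the length. -/
theorem global {ε : ℝ} (hε : 0 < ε) : ∃ N₀ : ℕ, ∀ N : ℕ, N₀ ≤ N → ∀ k : ℕ, k + 1 ≤ N →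
    ∀ x y x' y' : ℝ, |x * x' * SK k N + (x * y' + y * x') * SK (k + 1) N + y * y' * SK (k + 2) N| ≤
      (1 + ε) * √(x ^ 2 + y ^ 2) * √(x' ^ 2 + y' ^ 2) * N := by
  obtain ⟨N₁, h⟩ := pnt_shift (ε := ε / 2) (by positivity)
  refine ⟨max N₁ ⌈8 / ε⌉₊, fun N hN k hk x y x' y' => ?_⟩
  have hN1 : N₁ ≤ N := (le_max_left _ _).trans hN
  have hN2 : 8 / ε ≤ N := (Nat.le_ceil _).trans (by exact_mod_cast (le_max_right _ _).trans hN)
  rw [div_le_iff₀ hε] at hN2
  have h1 := contraction (s := Icc 1 N) (u := fun n => ∏ i ∈ range k, lamR (n + 1 + i))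
    (v := lamR) (v' := fun n => lamR (n + (k + 1))) (fun m => (prod_abs k (m + 1)).le)
    lamR_sq (fun m => lamR_sq _) (M := N) (ε := ε / 2) (by positivity) (by simp)
    (by simpa using h N hN1 0 (Nat.zero_le _)) (h N hN1 (k + 1) hk) x y x' y'
  have hbd : ∀ j : ℕ, |SK j N - ∑ n ∈ Icc 1 N, ∏ i ∈ range j, lamR (n + 1 + i)| ≤ 2 := by
    intro j
    have h2 := sum_shift (fun n => ∏ i ∈ range j, lamR (n + i)) N 1
    rw [h2, sum_Icc_succ_top (by omega)]
    unfold SK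
    have h3 := abs_le.1 (prod_abs j (N + 1)).le
    have h4 := abs_le.1 (prod_abs j 1).le
    rw [Icc_self, sum_singleton, abs_le]
    constructor <;> linarith [h3.1, h3.2, h4.1, h4.2]
  have e1 : ∑ m ∈ Icc 1 N, (∏ i ∈ range k, lamR (m + 1 + i)) * lamR (m + (k + 1)) =
      ∑ n ∈ Icc 1 N, ∏ i ∈ range (k + 1), lamR (n + 1 + i) := by
    refine sum_congr rfl fun m _ => ?_
    rw [prod_range_succ, show m + (k + 1) = m + 1 + k by ring]
  have e2 : ∑ m ∈ Icc 1 N, (∏ i ∈ range k, lamR (m + 1 + i)) * lamR m = SK (k + 1) N := by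
    unfold SK
    refine sum_congr rfl fun m _ => ?_
    rw [prod_range_succ', add_zero]
    congr 1
    refine prod_congr rfl fun i _ => ?_
    rw [show m + (i + 1) = m + 1 + i by ring]
  have e3 : ∑ m ∈ Icc 1 N, (∏ i ∈ range k, lamR (m + 1 + i)) * lamR m * lamR (m + (k + 1)) =
      SK (k + 2) N := by
    unfold SK
    refine sum_congr rfl fun m _ => ?_
    rw [prod_range_succ, prod_range_succ', add_zero]
    congr 1
    congr 1
    refine prod_congr rfl fun i _ => ?_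
    rw [show m + (i + 1) = m + 1 + i by ring]
  rw [e1, e2, e3] at h1
  have hb0 := hbd k
  have hb1 := hbd (k + 1)
  set A := ∑ n ∈ Icc 1 N, ∏ i ∈ range k, lamR (n + 1 + i)
  set B := ∑ n ∈ Icc 1 N, ∏ i ∈ range (k + 1), lamR (n + 1 + i)
  set r := √(x ^ 2 + y ^ 2) with hr
  set r' := √(x' ^ 2 + y' ^ 2) with hr'
  have hr0 : 0 ≤ r := Real.sqrt_nonneg _
  have hr0' : 0 ≤ r' := Real.sqrt_nonneg _
  have hx : |x| ≤ r := by
    rw [hr, ← Real.sqrt_sq_eq_abs]
    exact Real.sqrt_le_sqrt (by nlinarith [sq_nonneg y])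
  have hx' : |x'| ≤ r' := by
    rw [hr', ← Real.sqrt_sq_eq_abs]
    exact Real.sqrt_le_sqrt (by nlinarith [sq_nonneg y'])
  have hy' : |y'| ≤ r' := by
    rw [hr', ← Real.sqrt_sq_eq_abs]
    exact Real.sqrt_le_sqrt (by nlinarith [sq_nonneg x'])
  have h5 : x * x' * SK k N + (x * y' + y * x') * SK (k + 1) N + y * y' * SK (k + 2) N =
      (x * x' * A + x * y' * B + y * x' * SK (k + 1) N + y * y' * SK (k + 2) N) +
      (x * x' * (SK k N - A) + x * y' * (SK (k + 1) N - B)) := by ring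
  have h6 : |x * x' * (SK k N - A)| ≤ r * r' * 2 := by
    rw [abs_mul, abs_mul]
    gcongr
  have h7 : |x * y' * (SK (k + 1) N - B)| ≤ r * r' * 2 := by
    rw [abs_mul, abs_mul]
    gcongr
  rw [h5]
  have h8 := abs_add_le (x * x' * A + x * y' * B + y * x' * SK (k + 1) N + y * y' * SK (k + 2) N)
    (x * x' * (SK k N - A) + x * y' * (SK (k + 1) N - B))
  have h9 := abs_add_le (x * x' * (SK k N - A)) (x * y' * (SK (k + 1) N - B))
  have h10 : 0 ≤ r * r' := mul_nonneg hr0 hr0'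
  have h11 : r * r' * 8 ≤ r * r' * (N * ε) := by gcongr
  linarith

/-- Bessel's inequality -/
lemma bessel {a b R : ℝ} (hR : 0 ≤ R) (h : |a * a + b * b| ≤ R * √(a ^ 2 + b ^ 2)) :
    a ^ 2 + b ^ 2 ≤ R ^ 2 := by
  have h0 : 0 ≤ a ^ 2 + b ^ 2 := by positivity
  have h1 : |a * a + b * b| = a ^ 2 + b ^ 2 := by
    rw [abs_of_nonneg (by nlinarith)]
    ring
  rw [h1] at h
  have h2 := Real.sq_sqrt h0
  have h3 := Real.sqrt_nonneg (a ^ 2 + b ^ 2)
  set r := √(a ^ 2 + b ^ 2)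
  rcases eq_or_lt_of_le h3 with h4 | h4
  · rw [← h2, ← h4]
    nlinarith [sq_nonneg R]
  · have h5 : r ≤ R := by
      rw [← h2, sq] at h
      exact le_of_mul_le_mul_right h h4
    rw [← h2]
    gcongr

/-- Consecutive Chowla sums -/
theorem global_sq {ε : ℝ} (hε : 0 < ε) : ∃ N₀ : ℕ, ∀ N : ℕ, N₀ ≤ N → ∀ k : ℕ, k + 1 ≤ N →
    SK k N ^ 2 + SK (k + 1) N ^ 2 ≤ (1 + ε) * (N : ℝ) ^ 2 := by
  set δ : ℝ := min (ε / 3) 1 with hδ
  have hδ0 : 0 < δ := by positivity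
  have hδ1 : δ ≤ 1 := min_le_right _ _
  have hδ3 : δ ≤ ε / 3 := min_le_left _ _
  obtain ⟨N₀, h⟩ := global hδ0
  refine ⟨N₀, fun N hN k hk => ?_⟩
  have h1 := h N hN k hk (SK k N) (SK (k + 1) N) 1 0
  have h2 : SK k N * 1 * SK k N + (SK k N * 0 + SK (k + 1) N * 1) * SK (k + 1) N +
      SK (k + 1) N * 0 * SK (k + 2) N = SK k N * SK k N + SK (k + 1) N * SK (k + 1) N := by ring
  rw [h2] at h1
  have h3 : √((1 : ℝ) ^ 2 + 0 ^ 2) = 1 := by simp
  rw [h3, mul_one] at h1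
  have h4 := bessel (R := (1 + δ) * N) (by positivity) (h1.trans_eq (by ring))
  refine h4.trans ?_
  rw [mul_pow]
  have h5 : (1 + δ) ^ 2 ≤ 1 + ε := by nlinarith
  gcongr

/-- the first three Chowla sums -/
theorem global_three {ε : ℝ} (hε : 0 < ε) : ∃ N₀ : ℕ, ∀ N : ℕ, N₀ ≤ N →
    SK 2 N ^ 2 + N * |SK 3 N| ≤ (1 + ε) * (N : ℝ) ^ 2 := by
  obtain ⟨N₀, h⟩ := global (ε := ε / 4) (by positivity)
  obtain ⟨N₁, h'⟩ := pnt_shift (ε := ε / 4) (by positivity)
  refine ⟨max (max N₀ N₁) 2, fun N hN => ?_⟩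
  have hN0 : N₀ ≤ N := by omega
  have hN1 : N₁ ≤ N := by omega
  have hN2 : 2 ≤ N := by omega
  have hNpos : (0 : ℝ) < N := by
    have : 0 < N := by omega
    exact_mod_cast this
  have hS1 : SK 1 N = ∑ n ∈ Icc 1 N, lamR (n + 0) := by
    unfold SK
    refine sum_congr rfl fun n _ => ?_
    simp
  have h1 := h' N hN1 0 (Nat.zero_le _)
  rw [← hS1] at h1
  have htriv : |SK 2 N| ≤ N := by
    unfold SK
    refine (abs_sum_le_sum_abs _ _).trans ?_
    rw [sum_congr rfl (fun n _ => prod_abs 2 n)]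
    simp
  set a := SK 1 N
  set b := SK 2 N
  set c := SK 3 N
  have hb2 : b ^ 2 ≤ (N : ℝ) ^ 2 := sq_le_sq' (by linarith [(abs_le.1 htriv).1]) (abs_le.1 htriv).2
  have key : ∀ s : ℝ, |b * b * a + (b * s + s * b) * b + s * s * c| ≤
      (1 + ε / 4) * (b ^ 2 + s ^ 2) * N := by
    intro s
    have h2 := h N hN0 1 hN2 b s b s
    have h3 : (1 + ε / 4) * √(b ^ 2 + s ^ 2) * √(b ^ 2 + s ^ 2) * N =
        (1 + ε / 4) * (b ^ 2 + s ^ 2) * N := by
      rw [mul_assoc (1 + ε / 4), Real.mul_self_sqrt (by positivity)]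
    rw [h3] at h2
    exact h2
  have ha : |b * b * a| ≤ N * N * (ε / 4 * N) := by
    rw [abs_mul, abs_mul]
    gcongr
  have k1 := abs_le.1 (key N)
  have k2 := abs_le.1 (key (-N))
  have ha' := abs_le.1 ha
  have hb3 : ε / 4 * N * b ^ 2 ≤ ε / 4 * N * (N : ℝ) ^ 2 := by gcongr
  have e1 : b ^ 2 + c * N ≤ (1 + ε) * (N : ℝ) ^ 2 := by
    have : (b ^ 2 + c * N) * N ≤ ((1 + ε) * (N : ℝ) ^ 2) * N := by nlinarith [k1.2, ha'.1, hb3]
    exact le_of_mul_le_mul_right this hNpos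
  have e2 : b ^ 2 - c * N ≤ (1 + ε) * (N : ℝ) ^ 2 := by
    have : (b ^ 2 - c * N) * N ≤ ((1 + ε) * (N : ℝ) ^ 2) * N := by nlinarith [k2.1, ha'.2, hb3]
    exact le_of_mul_le_mul_right this hNpos
  rcases abs_cases c with ⟨hc, _⟩ | ⟨hc, _⟩ <;> rw [hc] <;> linarith

/-- few large Chowla sums -/
theorem count {ε : ℝ} (hε : 0 < ε) : ∃ N₀ : ℕ, ∀ N : ℕ, N₀ ≤ N → ∀ K : ℕ, K ≤ N →
    2 * ((Icc 1 K).filter (fun k => (1 / √2 + ε) * N ≤ |SK k N|)).card ≤ K := by
  obtain ⟨N₀, h⟩ := global_sq (ε := ε) hε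
  obtain ⟨N₁, h'⟩ := pnt_shift (ε := ε / 2) (by positivity)
  refine ⟨max (max N₀ N₁) 1, fun N hN K hK => ?_⟩
  have hN0 : N₀ ≤ N := by omega
  have hN1 : N₁ ≤ N := by omega
  have hNpos : (0 : ℝ) < N := by
    have : 0 < N := by omega
    exact_mod_cast this
  set T := (Icc 1 K).filter (fun k => (1 / √2 + ε) * N ≤ |SK k N|) with hT
  have hs2 : 0 < √(2 : ℝ) := by positivity
  have hs2' : (1 / √(2 : ℝ)) ^ 2 = 1 / 2 := by
    rw [div_pow, one_pow, Real.sq_sqrt (by norm_num)]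
  have hs1 : 1 / 2 < 1 / √(2 : ℝ) := by
    rw [one_div_lt_one_div (by norm_num) hs2]
    rw [Real.sqrt_lt' (by norm_num)]
    norm_num
  have hbig : ∀ k ∈ T, ((1 / 2 + ε) * (N : ℝ) ^ 2 < SK k N ^ 2) := by
    intro k hk
    rw [hT, mem_filter] at hk
    have h1 : ((1 / √2 + ε) * N) ^ 2 ≤ |SK k N| ^ 2 := by
      gcongr
      exact hk.2
    rw [sq_abs] at h1
    refine lt_of_lt_of_le ?_ h1
    rw [mul_pow]
    gcongr
    nlinarith [sq_nonneg ε]
  have h1T : 1 ∉ T := by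
    intro h1
    have h2 := hbig 1 h1
    have hS1 : SK 1 N = ∑ n ∈ Icc 1 N, lamR (n + 0) := by
      unfold SK
      refine sum_congr rfl fun n _ => ?_
      simp
    have h3 := h' N hN1 0 (Nat.zero_le _)
    rw [← hS1] at h3
    rw [hT, mem_filter] at h1
    have h4 := h1.2.trans h3
    have h5 := le_of_mul_le_mul_right h4 hNpos
    linarith
  have hcons : ∀ k, k ∈ T → k + 1 ∉ T := by
    intro k hk hk'
    have h1 := hbig k hk
    have h2 := hbig (k + 1) hk'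
    have h3 : k + 1 ≤ N := by
      rw [hT, mem_filter, mem_Icc] at hk'
      omega
    have h4 := h N hN0 k h3
    nlinarith [sq_nonneg (N : ℝ)]
  have hpos : ∀ k ∈ T, 2 ≤ k ∧ k ≤ K := by
    intro k hk
    have h2 := hk
    rw [hT, mem_filter, mem_Icc] at h2
    refine ⟨?_, h2.1.2⟩
    by_contra hc
    have : k = 1 := by omega
    rw [this] at hk
    exact h1T hk
  have hdisj : Disjoint T (T.image (fun k => k - 1)) := by
    rw [disjoint_left]
    intro k hk hk'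
    rw [mem_image] at hk'
    obtain ⟨j, hj, rfl⟩ := hk'
    have := hpos j hj
    apply hcons _ hk
    rw [show j - 1 + 1 = j by omega]
    exact hj
  have hcard : (T.image (fun k => k - 1)).card = T.card := by
    rw [card_image_of_injOn]
    intro a ha b hb hab
    have h1 := hpos a ha
    have h2 := hpos b hb
    simp only at hab
    omega
  have hunion : T ∪ T.image (fun k => k - 1) ⊆ Icc 1 K := by
    intro k hk
    rw [mem_union, mem_image] at hk
    rw [mem_Icc]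
    rcases hk with hk | ⟨j, hj, rfl⟩
    · have := hpos k hk
      omega
    · have := hpos j hj
      omega
  have := card_le_card hunion
  rw [card_union_of_disjoint hdisj, hcard, Nat.card_Icc] at this
  omega

end Pool.Agent.W588
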