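import Pool.Agent.W588.BlockU
import Pool.Agent.H426R3.CL.Lam

/-!
# Almost all short intervals

Functions with small short averages (`SmallAvg`) have small averages over almost all short intervals.
-/

set_option autoImplicit false

namespace Pool.Agent.W588

open Finset Pool.Agent.H376R2.MR Pool.Agent.H970R2.X Pool.Agent.H426R3.CL

/-- the sum of `g` over `(n, n + H]` -/
def SI (g : ℕ → ℤ) (H n : ℕ) : ℝ := ∑ m ∈ Ioc n (n + H), (g m : ℝ)

lemma abs_SI_le {g : ℕ → ℤ} (hg : Bdd g) (H n : ℕ) : |SI g H n| ≤ H := by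
  unfold SI
  refine (abs_sum_le_sum_abs _ _).trans ?_
  calc ∑ m ∈ Ioc n (n + H), |(g m : ℝ)| ≤ ∑ _m ∈ Ioc n (n + H), (1 : ℝ) := by
        refine sum_le_sum fun m _ => ?_
        exact_mod_cast hg m
    _ = H := by simp

lemma sum_union_le' {f : ℕ → ℝ} (hf : ∀ n, 0 ≤ f n) (s t : Finset ℕ) :
    ∑ n ∈ s ∪ t, f n ≤ ∑ n ∈ s, f n + ∑ n ∈ t, f n := by
  have h := sum_union_inter (s₁ := s) (s₂ := t) (f := f)
  have h2 : 0 ≤ ∑ n ∈ s ∩ t, f n := sum_nonneg fun n _ => hf n
  linarith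

/-- one offset -/
lemma one_offset {g : ℕ → ℤ} {κ ε : ℝ} {D N H r : ℕ} (hH : 0 < H)
    (hU : ∀ f : ℕ → ℝ, (∀ n, |f n| ≤ 1) →
      (((Icc 1 (3 * N + D)).filter (fun i => f i ≠ f (i + 1))).card : ℝ) ≤
        κ * ((3 * N + D : ℕ) : ℝ) →
      |∑ m ∈ Ioc (N / 2) N, (g m : ℝ) * f m| ≤ ε * N)
    (hκ : (N : ℝ) / H + 1 ≤ κ * ((3 * N + D : ℕ) : ℝ)) :
    ∑ n ∈ (Ico (N / 2) (N + 1 - H)).filter (fun n => n % H = r), |SI g H n| ≤ ε * N := by
  classical
  set S := (Ico (N / 2) (N + 1 - H)).filter (fun n => n % H = r) with hS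
  set sg : ℕ → ℝ := fun n => if 0 ≤ SI g H n then 1 else -1 with hsg
  have hsgabs : ∀ n, |sg n| = 1 := by
    intro n
    simp only [hsg]
    split_ifs <;> simp
  have hsgmul : ∀ n, sg n * SI g H n = |SI g H n| := by
    intro n
    simp only [hsg]
    split_ifs with h
    · rw [one_mul, abs_of_nonneg h]
    · rw [abs_of_neg (not_le.1 h)]; ring
  set f : ℕ → ℝ := fun m => ∑ n ∈ S, if m ∈ Ioc n (n + H) then sg n else 0 with hf
  have hmemS : ∀ n ∈ S, N / 2 ≤ n ∧ n + H ≤ N ∧ n % H = r := by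
    intro n hn
    rw [hS, mem_filter, mem_Ico] at hn
    omega
  have huniq : ∀ m, ((S.filter (fun n => m ∈ Ioc n (n + H))).card) ≤ 1 := by
    intro m
    rw [card_le_one]
    intro a ha b hb
    rw [mem_filter, mem_Ioc] at ha hb
    have h1 := (hmemS a ha.1).2.2
    have h2 := (hmemS b hb.1).2.2
    have h3 : a ≡ b [MOD H] := by unfold Nat.ModEq; rw [h1, h2]
    rcases lt_trichotomy a b with h | h | h
    · have h4 := (Nat.modEq_iff_dvd' h.le).1 h3
      have h5 := Nat.le_of_dvd (by omega) h4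
      omega
    · exact h
    · have h4 := (Nat.modEq_iff_dvd' h.le).1 h3.symm
      have h5 := Nat.le_of_dvd (by omega) h4
      omega
  have hf1 : ∀ m, |f m| ≤ 1 := by
    intro m
    simp only [hf]
    rw [← sum_filter]
    refine (abs_sum_le_sum_abs _ _).trans ?_
    rw [sum_congr rfl (fun n _ => hsgabs n), sum_const, nsmul_eq_mul, mul_one]
    exact_mod_cast huniq m
  have hch : (Icc 1 (3 * N + D)).filter (fun i => f i ≠ f (i + 1)) ⊆
      (Icc 1 N).filter (fun i => i % H = r) := by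
    intro i hi
    rw [mem_filter, mem_Icc] at hi
    obtain ⟨⟨hi1, _⟩, hne⟩ := hi
    by_contra hcon
    apply hne
    simp only [hf]
    refine sum_congr rfl fun n hn => ?_
    obtain ⟨h1, h2, h3⟩ := hmemS n hn
    have hiff : i ∈ Ioc n (n + H) ↔ i + 1 ∈ Ioc n (n + H) := by
      rw [mem_Ioc, mem_Ioc]
      constructor
      · rintro ⟨a1, a2⟩
        refine ⟨by omega, ?_⟩
        by_contra hc
        have e : i = n + H := by omega
        apply hcon
        rw [mem_filter, mem_Icc]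
        refine ⟨⟨hi1, by omega⟩, ?_⟩
        rw [e, Nat.add_mod_right]
        exact h3
      · rintro ⟨a1, a2⟩
        refine ⟨?_, by omega⟩
        by_contra hc
        have e : i = n := by omega
        apply hcon
        rw [mem_filter, mem_Icc]
        exact ⟨⟨hi1, by omega⟩, by rw [e]; exact h3⟩
    simp only [hiff]
  have hcard : (((Icc 1 N).filter (fun i => i % H = r)).card : ℝ) ≤ (N : ℝ) / H + 1 := by
    have h1 : ((Icc 1 N).filter (fun i => i % H = r)).card ≤ N / H + 1 := by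
      have h2 : (Icc 1 N).filter (fun i => i % H = r) ⊆
          (range (N / H + 1)).image (fun j => r + H * j) := by
        intro i hi
        rw [mem_filter, mem_Icc] at hi
        rw [mem_image]
        refine ⟨i / H, ?_, ?_⟩
        · rw [mem_range]
          have := Nat.div_le_div_right (c := H) hi.1.2
          omega
        · have := Nat.mod_add_div i H
          rw [hi.2] at this
          exact this
      calc _ ≤ ((range (N / H + 1)).image (fun j => r + H * j)).card := card_le_card h2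
        _ ≤ (range (N / H + 1)).card := card_image_le
        _ = N / H + 1 := card_range _
    calc (((Icc 1 N).filter (fun i => i % H = r)).card : ℝ) ≤ ((N / H + 1 : ℕ) : ℝ) := by
          exact_mod_cast h1
      _ ≤ (N : ℝ) / H + 1 := by
          push_cast
          have := @Nat.cast_div_le ℝ _ _ _ N H
          linarith
  have hmain := hU f hf1 (by
    refine le_trans ?_ (hcard.trans hκ)
    exact_mod_cast card_le_card hch)
  have hid : ∑ m ∈ Ioc (N / 2) N, (g m : ℝ) * f m = ∑ n ∈ S, |SI g H n| := by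
    simp only [hf, mul_sum]
    rw [sum_comm]
    refine sum_congr rfl fun n hn => ?_
    obtain ⟨h1, h2, h3⟩ := hmemS n hn
    rw [← hsgmul n]
    unfold SI
    rw [mul_sum]
    have hsub : Ioc n (n + H) ⊆ Ioc (N / 2) N := by
      intro m hm
      rw [mem_Ioc] at hm ⊢
      omega
    rw [← sum_subset hsub (f := fun m => (g m : ℝ) * if m ∈ Ioc n (n + H) then sg n else 0)]
    · refine sum_congr rfl fun m hm => ?_
      rw [if_pos hm, mul_comm]
    · intro m _ hm
      rw [if_neg hm, mul_zero]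
  rw [hid] at hmain
  exact (le_abs_self _).trans hmain

/-- dyadic form -/
lemma dyadic {g : ℕ → ℤ} (hg : SmallAvg g) {ε : ℝ} (hε : 0 < ε) :
    ∃ H₀ : ℕ, 0 < H₀ ∧ ∀ H : ℕ, H₀ ≤ H → ∃ N₁ : ℕ, ∀ N : ℕ, N₁ ≤ N →
      ∑ n ∈ Ico (N / 2) (N + 1 - H), |SI g H n| ≤ ε * N * H := by
  obtain ⟨κ, hκ, D, N₁, hU⟩ := blockU hg hε
  refine ⟨⌈1 / κ⌉₊ + 1, by omega, fun H hH => ⟨max N₁ ⌈1 / κ⌉₊, fun N hN => ?_⟩⟩
  have hHpos : 0 < H := by omega
  have hH0 : (0 : ℝ) < H := by exact_mod_cast hHpos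
  have hH1 : 1 / κ ≤ H := (Nat.le_ceil _).trans (by exact_mod_cast (by omega : ⌈1 / κ⌉₊ ≤ H))
  have hN1 : 1 / κ ≤ N := (Nat.le_ceil _).trans (by exact_mod_cast (le_max_right _ _).trans hN)
  have hHκ : 1 ≤ κ * H := by
    rw [div_le_iff₀ hκ] at hH1
    linarith
  have hNκ : 1 ≤ κ * N := by
    rw [div_le_iff₀ hκ] at hN1
    linarith
  have hκ2 : (N : ℝ) / H + 1 ≤ κ * ((3 * N + D : ℕ) : ℝ) := by
    have h1 : (N : ℝ) / H ≤ κ * N := by
      rw [div_le_iff₀ hH0]
      have : (0 : ℝ) ≤ N := Nat.cast_nonneg _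
      nlinarith
    push_cast
    have h2 : 0 ≤ κ * (D : ℝ) := by positivity
    have h3 : 0 ≤ κ * (N : ℝ) := by positivity
    linarith
  have hmaps : ∀ n ∈ Ico (N / 2) (N + 1 - H), n % H ∈ range H := fun n _ =>
    mem_range.2 (Nat.mod_lt _ hHpos)
  rw [← sum_fiberwise_of_maps_to hmaps]
  calc ∑ r ∈ range H, ∑ n ∈ (Ico (N / 2) (N + 1 - H)).filter (fun n => n % H = r), |SI g H n|
      ≤ ∑ _r ∈ range H, ε * N := by
        refine sum_le_sum fun r _ => ?_
        exact one_offset hHpos (hU N ((le_max_left _ _).trans hN)) hκ2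
    _ = ε * N * H := by rw [sum_const, card_range, nsmul_eq_mul]; ring

/-- **Almost all short intervals**, `L¹` form -/
theorem short {g : ℕ → ℤ} (hg : SmallAvg g) {ε : ℝ} (hε : 0 < ε) :
    ∃ H₀ : ℕ, 0 < H₀ ∧ ∀ H : ℕ, H₀ ≤ H → ∃ X₀ : ℕ, ∀ X : ℕ, X₀ ≤ X →
      ∑ n ∈ Icc 1 X, |SI g H n| ≤ ε * X * H := by
  obtain ⟨H₀, hH₀, h⟩ := dyadic hg (ε := ε / 8) (by positivity)
  refine ⟨H₀, hH₀, fun H hH => ?_⟩
  obtain ⟨N₁, hN₁⟩ := h H hH
  have hHpos : 0 < H := by omega
  have hH0 : (0 : ℝ) < H := by exact_mod_cast hHpos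
  set M : ℕ := max N₁ ⌈8 * H / ε⌉₊ + 1 with hM
  have htriv : ∀ X : ℕ, ∑ n ∈ Icc 1 X, |SI g H n| ≤ X * H := by
    intro X
    calc ∑ n ∈ Icc 1 X, |SI g H n| ≤ ∑ _n ∈ Icc 1 X, (H : ℝ) :=
          sum_le_sum fun n _ => abs_SI_le hg.1 H n
      _ = X * H := by simp
  have hind : ∀ X : ℕ, ∑ n ∈ Icc 1 X, |SI g H n| ≤ ε / 2 * X * H + M * H := by
    intro X
    induction X using Nat.strong_induction_on with
    | _ X ih =>
      by_cases hX : X < M
      · refine (htriv X).trans ?_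
        have h1 : (X : ℝ) ≤ M := by exact_mod_cast hX.le
        have h2 : (X : ℝ) * H ≤ M * H := by gcongr
        have h3 : 0 ≤ ε / 2 * X * H := by positivity
        linarith
      · push Not at hX
        have hX1 : N₁ ≤ X := by
          have := le_max_left N₁ ⌈8 * (H : ℝ) / ε⌉₊
          omega
        have hX2 : 8 * (H : ℝ) / ε ≤ X := by
          refine (Nat.le_ceil _).trans ?_
          have := le_max_right N₁ ⌈8 * (H : ℝ) / ε⌉₊
          exact_mod_cast (by omega : ⌈8 * (H : ℝ) / ε⌉₊ ≤ X)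
        have hX2' : 8 * (H : ℝ) ≤ ε * X := by
          rw [div_le_iff₀ hε] at hX2
          linarith
        have hXpos : 0 < X := by omega
        have h1 := ih (X / 2) (by omega)
        have h2 := hN₁ X hX1
        have hsub : Icc 1 X ⊆ Icc 1 (X / 2) ∪ (Ico (X / 2) (X + 1 - H) ∪ Icc (X + 1 - H) X) := by
          intro n hn
          rw [mem_Icc] at hn
          rw [mem_union, mem_union, mem_Icc, mem_Ico, mem_Icc]
          omega
        have h3 : ∑ n ∈ Icc 1 X, |SI g H n| ≤ ∑ n ∈ Icc 1 (X / 2), |SI g H n| +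
            (∑ n ∈ Ico (X / 2) (X + 1 - H), |SI g H n| + ∑ n ∈ Icc (X + 1 - H) X, |SI g H n|) := by
          refine (sum_le_sum_of_subset_of_nonneg hsub fun _ _ _ => abs_nonneg _).trans ?_
          refine (sum_union_le' (fun n => abs_nonneg _) _ _).trans ?_
          gcongr
          exact sum_union_le' (fun n => abs_nonneg _) _ _
        have h4 : ∑ n ∈ Icc (X + 1 - H) X, |SI g H n| ≤ H * H := by
          calc ∑ n ∈ Icc (X + 1 - H) X, |SI g H n| ≤ ∑ _n ∈ Icc (X + 1 - H) X, (H : ℝ) :=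
                sum_le_sum fun n _ => abs_SI_le hg.1 H n
            _ = ((Icc (X + 1 - H) X).card : ℝ) * H := by rw [sum_const, nsmul_eq_mul]
            _ ≤ H * H := by
                gcongr
                rw [Nat.card_Icc]
                omega
        have h5 : ((X / 2 : ℕ) : ℝ) ≤ X / 2 := by
          have := @Nat.cast_div_le ℝ _ _ _ X 2
          simpa using this
        have h6 : ε / 2 * ((X / 2 : ℕ) : ℝ) * H ≤ ε / 2 * (X / 2) * H := by gcongr
        have h7 : (H : ℝ) * H ≤ ε / 8 * X * H := by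
          have : (H : ℝ) ≤ ε / 8 * X := by linarith
          gcongr
        have h8 : 0 ≤ ε * X * H := by positivity
        linarith
  refine ⟨⌈2 * (M : ℝ) / ε⌉₊, fun X hX => (hind X).trans ?_⟩
  have h1 : 2 * (M : ℝ) / ε ≤ X := (Nat.le_ceil _).trans (by exact_mod_cast hX)
  rw [div_le_iff₀ hε] at h1
  have h2 : (M : ℝ) ≤ ε / 2 * X := by linarith
  have h3 : (M : ℝ) * H ≤ ε / 2 * X * H := by gcongr
  linarith

end Pool.Agent.W588
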